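import Pool.Agent.Helper90.PX.Means

/-!
Project PX (MP_b8862a_ag), block PX-6: lower bounds for the dimensions, from the inequality of the means.
-/

open Finset PW

namespace PX

/-- double products over `Fin m` as products over intervals -/
theorem prod_Ioi21 {M : Type*} [CommMonoid M] (m : ℕ) (G : ℕ → ℕ → M) :
    ∏ i : Fin m, ∏ j ∈ Finset.Ioi i, G i j = ∏ i ∈ range m, ∏ j ∈ Ico (i + 1) m, G i j := by
  rw [← Fin.prod_univ_eq_prod_range (fun i => ∏ j ∈ Ico (i + 1) m, G i j) m]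
  refine Finset.prod_congr rfl fun i _ => ?_
  refine Finset.prod_bij (fun (j : Fin m) _ => (j : ℕ)) ?_ (fun a _ b _ h => Fin.ext h) ?_ (fun _ _ => rfl)
  · intro j hj
    rw [Finset.mem_Ioi] at hj
    rw [Finset.mem_Ico]
    exact ⟨hj, j.2⟩
  · intro j hj
    rw [Finset.mem_Ico] at hj
    exact ⟨⟨j, hj.2⟩, Finset.mem_Ioi.2 (Fin.lt_def.2 hj.1), rfl⟩

theorem tele21 (z : ℕ → ℝ) {i j : ℕ} (h : i ≤ j) :
    ∑ l ∈ Ico i j, (z l - z (l + 1) + 1) = z i - z j + ((j : ℝ) - i) := by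
  induction j, h using Nat.le_induction with
  | base => simp
  | succ j hj ih =>
    rw [Finset.sum_Ico_succ_top hj, ih]
    push_cast
    ring

theorem one_le_prod21 {ι : Type*} {s : Finset ι} {f : ι → ℝ} (h : ∀ i ∈ s, 1 ≤ f i) : 1 ≤ ∏ i ∈ s, f i := by
  calc (1 : ℝ) = ∏ _i ∈ s, (1 : ℝ) := (Finset.prod_const_one).symm
    _ ≤ _ := Finset.prod_le_prod (fun _ _ => zero_le_one) h

/-- the inequality of the means (block PX-5), as a proposition -/
def Means : Prop := ∃ R : ℕ, ∀ m, R ≤ m → ∀ β : ℕ → ℝ, (∀ l, 1 ≤ β l) →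
    (∏ l ∈ Finset.range (m - 1), β l ^ gg m l) ^ 4 ≤
      ∏ i ∈ Finset.range m, ∏ j ∈ Finset.Ico (i + 1) m, ((∑ l ∈ Finset.Ico i j, β l) / ((j : ℝ) - i))

/-- the product of the averages -/
theorem avg21 {m : ℕ} (β z : ℕ → ℝ) (hβ : ∀ l, l + 1 < m → β l = z l - z (l + 1) + 1) :
    ∏ i ∈ Finset.range m, ∏ j ∈ Finset.Ico (i + 1) m, ((∑ l ∈ Finset.Ico i j, β l) / ((j : ℝ) - i)) =
      ∏ i ∈ Finset.range m, ∏ j ∈ Finset.Ico (i + 1) m, ((z i - z j + ((j : ℝ) - i)) / ((j : ℝ) - i)) := by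
  refine Finset.prod_congr rfl fun i hi => Finset.prod_congr rfl fun j hj => ?_
  rw [Finset.mem_Ico] at hj
  rw [← tele21 z (by omega : i ≤ j)]
  congr 1
  refine Finset.sum_congr rfl fun l hl => ?_
  rw [Finset.mem_Ico] at hl
  exact hβ l (by omega)

theorem lowA21 (hM : Means) : ∃ R : ℕ, ∀ m, R ≤ m → ∀ (z : Fin m → ℤ) (n : ℕ), (∀ i j, i < j → z j ≤ z i) →
    (∀ i : Fin m, (i : ℕ) + 1 = m → z i = 0) → n * Pa m 0 = Pa m z → Pa m 0 ≠ 0 → 0 < n →
    (∏ i : Fin m, (if h : (i : ℕ) + 1 < m then z i - z ⟨i + 1, h⟩ + 1 else 1) ^ gg m i) ^ 4 ≤ (n : ℤ) := by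
  obtain ⟨R, hR⟩ := hM
  refine ⟨R + 1, fun m hm z n hz _ hn h0 _ => ?_⟩
  obtain ⟨z', hz'⟩ : ∃ z' : ℕ → ℤ, z' = fun i => if h : i < m then z ⟨i, h⟩ else 0 := ⟨_, rfl⟩
  have hzz : ∀ i : Fin m, z i = z' i := by
    intro i
    rw [hz']
    simp only [i.2, dif_pos]
  obtain ⟨β, hβ⟩ : ∃ β : ℕ → ℤ, β = fun l => if l + 1 < m then z' l - z' (l + 1) + 1 else 1 := ⟨_, rfl⟩
  have hβ1 : ∀ l, 1 ≤ β l := by
    intro l
    rw [hβ]
    simp only
    split_ifs with h
    · have h1 := hz ⟨l, by omega⟩ ⟨l + 1, h⟩ (Fin.lt_def.2 (Nat.lt_succ_self l))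
      rw [hzz, hzz] at h1
      simp only at h1
      omega
    · exact le_rfl
  have hprod : ∏ i : Fin m, (if h : (i : ℕ) + 1 < m then z i - z ⟨i + 1, h⟩ + 1 else 1) ^ gg m i =
      ∏ l ∈ range (m - 1), β l ^ gg m l := by
    have h1 : ∏ i : Fin m, (if h : (i : ℕ) + 1 < m then z i - z ⟨i + 1, h⟩ + 1 else 1) ^ gg m i =
        ∏ i : Fin m, β i ^ gg m i := by
      refine Finset.prod_congr rfl fun i _ => ?_
      congr 1
      rw [hβ]
      simp only
      by_cases h : (i : ℕ) + 1 < m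
      · rw [dif_pos h, if_pos h, hzz, hzz]
      · rw [dif_neg h, if_neg h]
    rw [h1, Fin.prod_univ_eq_prod_range (fun i => β i ^ gg m i) m]
    obtain ⟨k, rfl⟩ : ∃ k, m = k + 1 := ⟨m - 1, by omega⟩
    rw [Finset.prod_range_succ, Nat.add_sub_cancel]
    have h2 : β k = 1 := by rw [hβ]; exact if_neg (by omega)
    rw [h2, one_pow, mul_one]
  have hPa : ∀ x : ℕ → ℤ, Pa m (fun i => x i) = ∏ i ∈ range m, ∏ j ∈ Ico (i + 1) m, (x i - x j + ((j : ℤ) - i)) := by
    intro x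
    exact prod_Ioi21 m fun i j => x i - x j + ((j : ℤ) - i)
  have e1 : Pa m z = ∏ i ∈ range m, ∏ j ∈ Ico (i + 1) m, (z' i - z' j + ((j : ℤ) - i)) := by
    rw [← hPa]
    congr 1
    funext i
    exact hzz i
  have e2 : Pa m 0 = ∏ i ∈ range m, ∏ j ∈ Ico (i + 1) m, ((j : ℤ) - i) := by
    have := hPa 0
    simp only [Pi.zero_apply, sub_self, zero_add] at this
    exact this
  have e3 : (n : ℝ) = ∏ i ∈ range m, ∏ j ∈ Ico (i + 1) m, (((z' i : ℝ) - z' j + ((j : ℝ) - i)) / ((j : ℝ) - i)) := by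
    simp only [Finset.prod_div_distrib]
    have h3 : (∏ i ∈ range m, ∏ j ∈ Ico (i + 1) m, ((j : ℝ) - i)) ≠ 0 := by
      have h4 : ((Pa m 0 : ℤ) : ℝ) ≠ 0 := by exact_mod_cast h0
      rw [e2] at h4
      push_cast at h4
      exact h4
    rw [eq_div_iff h3]
    have h5 : ((n * Pa m 0 : ℤ) : ℝ) = ((Pa m z : ℤ) : ℝ) := by rw [hn]
    rw [e1, e2] at h5
    push_cast at h5
    exact h5
  have e4 := hR m (by omega) (fun l => (β l : ℝ)) (fun l => by exact_mod_cast hβ1 l)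
  rw [avg21 (fun l => (β l : ℝ)) (fun l => (z' l : ℝ)) ?_, ← e3] at e4
  · rw [hprod]
    exact_mod_cast e4
  · intro l hl
    rw [hβ]
    simp only [if_pos hl]
    push_cast
    ring

theorem lowD21 (hM : Means) : ∃ R : ℕ, ∀ m, R ≤ m → ∀ (d : ℕ), d ≤ 2 → ∀ (y : Fin m → ℤ) (n : ℕ),
    (∀ i j, i < j → |y j| ≤ y i) → (∀ i j, (2 : ℤ) ∣ y i - y j) → n * Py d m 0 = Py d m y → Py d m 0 ≠ 0 → 0 < n →
    (∏ i : Fin m, (if h : (i : ℕ) + 1 < m then (y i - y ⟨i + 1, h⟩) / 2 + 1 else |y i| + 1) ^ gg m i) ^ 4 ≤ (n : ℤ) := by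
  obtain ⟨R, hR⟩ := hM
  refine ⟨R + 400, fun m hm d hd y n hy h2 hn h0 hn0 => ?_⟩
  obtain ⟨y', hy'⟩ : ∃ y' : ℕ → ℤ, y' = fun i => if h : i < m then y ⟨i, h⟩ else 0 := ⟨_, rfl⟩
  have hyy : ∀ i : Fin m, y i = y' i := by
    intro i
    rw [hy']
    simp only [i.2, dif_pos]
  have hmon : ∀ i j, i < j → j < m → |y' j| ≤ y' i := by
    intro i j hij hj
    have h1 := hy ⟨i, by omega⟩ ⟨j, hj⟩ (Fin.lt_def.2 hij)
    rw [hyy, hyy] at h1
    exact h1
  have hev : ∀ i j, i < m → j < m → (2 : ℤ) ∣ y' i - y' j := by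
    intro i j hi hj
    have h1 := h2 ⟨i, hi⟩ ⟨j, hj⟩
    rw [hyy, hyy] at h1
    exact h1
  obtain ⟨β, hβ⟩ : ∃ β : ℕ → ℤ, β = fun l => if l + 1 < m then (y' l - y' (l + 1)) / 2 + 1 else 1 := ⟨_, rfl⟩
  have hβ1 : ∀ l, 1 ≤ β l := by
    intro l
    rw [hβ]
    simp only
    split_ifs with h
    · have h1 := hmon l (l + 1) (Nat.lt_succ_self l) h
      have h3 := le_abs_self (y' (l + 1))
      have h4 : 0 ≤ (y' l - y' (l + 1)) / 2 := Int.ediv_nonneg (by omega) (by norm_num)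
      omega
    · exact le_rfl
  obtain ⟨t, ht⟩ : ∃ t : ℤ, t = |y' (m - 1)| := ⟨_, rfl⟩
  have ht0 : 0 ≤ t := by rw [ht]; exact abs_nonneg _
  have hggm : gg m (m - 1) = 2 := by
    unfold gg
    have : min (m - 1 + 1) (m - 1 - (m - 1)) / 4 = 0 := by
      have h1 : min (m - 1 + 1) (m - 1 - (m - 1)) = 0 := by omega
      rw [h1]
    rw [this]
    rfl
  have hprod : ∏ i : Fin m, (if h : (i : ℕ) + 1 < m then (y i - y ⟨i + 1, h⟩) / 2 + 1 else |y i| + 1) ^ gg m i =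
      (∏ l ∈ range (m - 1), β l ^ gg m l) * (t + 1) ^ 2 := by
    have h1 : ∏ i : Fin m, (if h : (i : ℕ) + 1 < m then (y i - y ⟨i + 1, h⟩) / 2 + 1 else |y i| + 1) ^ gg m i =
        ∏ i : Fin m, (fun i : ℕ => (if i + 1 < m then (y' i - y' (i + 1)) / 2 + 1 else |y' i| + 1) ^ gg m i) i := by
      refine Finset.prod_congr rfl fun i _ => ?_
      simp only
      congr 1
      by_cases h : (i : ℕ) + 1 < m
      · rw [dif_pos h, if_pos h, hyy, hyy]
      · rw [dif_neg h, if_neg h, hyy]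
    rw [h1, Fin.prod_univ_eq_prod_range (fun i : ℕ => (if i + 1 < m then (y' i - y' (i + 1)) / 2 + 1 else |y' i| + 1) ^ gg m i) m]
    obtain ⟨k, rfl⟩ : ∃ k, m = k + 1 := ⟨m - 1, by omega⟩
    rw [Nat.add_sub_cancel] at hggm ht ⊢
    rw [Finset.prod_range_succ, if_neg (by omega), hggm, ht]
    congr 1
    refine Finset.prod_congr rfl fun l hl => ?_
    rw [Finset.mem_range] at hl
    rw [hβ]
    simp only
    rw [if_pos (by omega), if_pos (by omega)]
  -- Weyl's product over the real numbers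
  obtain ⟨V, hV⟩ : ∃ V : ℕ → ℤ, V = fun i : ℕ => 2 * ((m : ℤ) - 1 - (i : ℤ)) + d := ⟨_, rfl⟩
  have hPy : ∀ x : ℕ → ℤ, Py d m (fun i => x i) = (∏ i ∈ range m, ∏ j ∈ Ico (i + 1) m, ((x i + V i) ^ 2 - (x j + V j) ^ 2)) *
      (if d = 0 then 1 else ∏ i ∈ range m, (x i + V i)) := by
    intro x
    unfold Py
    rw [← prod_Ioi21 m fun i j => (x i + V i) ^ 2 - (x j + V j) ^ 2, ← Fin.prod_univ_eq_prod_range (fun i => x i + V i) m, hV]
    rfl
  have e1 := hPy y'
  rw [← (funext hyy : y = fun i : Fin m => y' i)] at e1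
  have e2 := hPy 0
  simp only [Pi.zero_apply, zero_add] at e2
  change Py d m 0 = _ at e2
  rw [e2] at h0 hn
  rw [e1] at hn
  have hVpos : ∀ i, i + 1 < m → 0 < V i := by
    intro i hi
    rw [hV]
    simp only
    omega
  have hVd : ∀ i j, i < j → j < m → V i - V j = 2 * ((j : ℤ) - i) := by
    intro i j _ _
    rw [hV]
    simp only
    ring
  have hVs : ∀ i j, i < j → j < m → 0 < V i + V j := by
    intro i j h3 h4
    rw [hV]
    simp only
    omega
  have hy0 : ∀ i j, i < j → j < m → 0 ≤ y' i + y' j := by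
    intro i j h3 h4
    have h5 := hmon i j h3 h4
    have h6 := neg_abs_le (y' j)
    omega
  -- the three factors
  obtain ⟨A, hA⟩ : ∃ A : ℝ, A = ∏ i ∈ range m, ∏ j ∈ Ico (i + 1) m,
      (((y' i : ℝ) / 2 - (y' j : ℝ) / 2 + ((j : ℝ) - i)) / ((j : ℝ) - i)) := ⟨_, rfl⟩
  obtain ⟨f, hf⟩ : ∃ f : ℕ → ℕ → ℝ, f = fun i j => ((y' i : ℝ) + y' j + (V i + V j)) / (V i + V j) := ⟨_, rfl⟩
  obtain ⟨B, hB⟩ : ∃ B : ℝ, B = ∏ i ∈ range m, ∏ j ∈ Ico (i + 1) m, f i j := ⟨_, rfl⟩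
  obtain ⟨D, hD⟩ : ∃ D : ℝ, D = if d = 0 then 1 else ∏ i ∈ range m, (((y' i : ℝ) + V i) / V i) := ⟨_, rfl⟩
  have hnr : (n : ℝ) = A * B * D := by
    have h3 : (n : ℝ) * ((∏ i ∈ range m, ∏ j ∈ Ico (i + 1) m, ((V i : ℝ) ^ 2 - (V j : ℝ) ^ 2)) *
        (if d = 0 then 1 else ∏ i ∈ range m, (V i : ℝ))) =
        (∏ i ∈ range m, ∏ j ∈ Ico (i + 1) m, (((y' i : ℝ) + V i) ^ 2 - ((y' j : ℝ) + V j) ^ 2)) *
        (if d = 0 then 1 else ∏ i ∈ range m, ((y' i : ℝ) + V i)) := by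
      have h4 : ((_ : ℤ) : ℝ) = ((_ : ℤ) : ℝ) := congrArg Int.cast hn
      push_cast at h4
      exact h4
    have h5 : (∏ i ∈ range m, ∏ j ∈ Ico (i + 1) m, (((y' i : ℝ) + V i) ^ 2 - ((y' j : ℝ) + V j) ^ 2)) =
        A * B * ∏ i ∈ range m, ∏ j ∈ Ico (i + 1) m, ((V i : ℝ) ^ 2 - (V j : ℝ) ^ 2) := by
      rw [hA, hB, ← Finset.prod_mul_distrib, ← Finset.prod_mul_distrib]
      refine Finset.prod_congr rfl fun i hi => ?_
      rw [← Finset.prod_mul_distrib, ← Finset.prod_mul_distrib]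
      refine Finset.prod_congr rfl fun j hj => ?_
      rw [Finset.mem_Ico] at hj
      have h6 : (V i : ℝ) - V j = 2 * ((j : ℝ) - i) := by exact_mod_cast hVd i j hj.1 hj.2
      have h7 : (0 : ℝ) < V i + V j := by exact_mod_cast hVs i j hj.1 hj.2
      have h8 : (0 : ℝ) < (j : ℝ) - i := by
        have : (i : ℝ) < j := by exact_mod_cast (show i < j by omega)
        linarith
      have h9 : ((V i : ℝ) ^ 2 - (V j : ℝ) ^ 2) = (2 * ((j : ℝ) - i)) * (V i + V j) := by rw [← h6]; ring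
      have h10 : ((y' i : ℝ) + V i) ^ 2 - ((y' j : ℝ) + V j) ^ 2 =
          ((y' i : ℝ) - y' j + 2 * ((j : ℝ) - i)) * ((y' i : ℝ) + y' j + (V i + V j)) := by rw [← h6]; ring
      rw [h9, h10, hf]
      field_simp
      try ring
    have h6 : (if d = 0 then 1 else ∏ i ∈ range m, ((y' i : ℝ) + V i)) =
        D * (if d = 0 then 1 else ∏ i ∈ range m, (V i : ℝ)) := by
      rw [hD]
      by_cases hd0 : d = 0
      · rw [if_pos hd0, if_pos hd0, if_pos hd0, one_mul]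
      · rw [if_neg hd0, if_neg hd0, if_neg hd0, ← Finset.prod_mul_distrib]
        refine Finset.prod_congr rfl fun i hi => ?_
        rw [Finset.mem_range] at hi
        have : (V i : ℝ) ≠ 0 := by
          have h7 : V i ≠ 0 := by
            rw [hV]
            simp only
            omega
          exact_mod_cast h7
        rw [div_mul_cancel₀ _ this]
    have h7 : ((∏ i ∈ range m, ∏ j ∈ Ico (i + 1) m, ((V i : ℝ) ^ 2 - (V j : ℝ) ^ 2)) *
        (if d = 0 then 1 else ∏ i ∈ range m, (V i : ℝ))) ≠ 0 := by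
      have h8 := (Int.cast_ne_zero (α := ℝ)).2 h0
      push_cast at h8
      exact h8
    rw [h5, h6] at h3
    apply mul_right_cancel₀ h7
    rw [h3]
    ring
  -- the first factor
  have hAlow : (((∏ l ∈ range (m - 1), β l ^ gg m l) ^ 4 : ℤ) : ℝ) ≤ A := by
    have e4 := hR m (by omega) (fun l => (β l : ℝ)) (fun l => by exact_mod_cast hβ1 l)
    rw [avg21 (fun l => (β l : ℝ)) (fun l => (y' l : ℝ) / 2) ?_, ← hA] at e4
    · push_cast
      exact e4
    · intro l hl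
      rw [hβ]
      simp only [if_pos hl]
      obtain ⟨q, hq⟩ := hev l (l + 1) (by omega) hl
      rw [hq, Int.mul_ediv_cancel_left _ (by norm_num)]
      have h3 : (y' l : ℝ) - y' (l + 1) = 2 * q := by exact_mod_cast hq
      push_cast
      linarith
  -- the second factor
  have hf1 : ∀ i j, i < j → j < m → 1 ≤ f i j := by
    intro i j h3 h4
    rw [hf]
    simp only
    have h5 : (0 : ℝ) < V i + V j := by exact_mod_cast hVs i j h3 h4
    have h6 : (0 : ℝ) ≤ (y' i : ℝ) + y' j := by exact_mod_cast hy0 i j h3 h4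
    rw [le_div_iff₀ h5]
    linarith
  obtain ⟨a, ha⟩ : ∃ a : ℝ, a = 1 + (t : ℝ) / (2 * m) := ⟨_, rfl⟩
  have htr : (0 : ℝ) ≤ t := by exact_mod_cast ht0
  have hmr : (0 : ℝ) < m := by
    have : 0 < m := by omega
    exact_mod_cast this
  have ha1 : 1 ≤ a := by
    rw [ha]
    have : 0 ≤ (t : ℝ) / (2 * m) := by positivity
    linarith
  have hf2 : ∀ i j, i < j → j + 1 < m → a ≤ f i j := by
    intro i j h3 h4
    rw [hf, ha]
    simp only
    have h5 : (0 : ℝ) < V i + V j := by exact_mod_cast hVs i j h3 (by omega)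
    have h6 : 2 * t ≤ y' i + y' j := by
      have h7 := hmon i (m - 1) (by omega) (by omega)
      have h8 := hmon j (m - 1) (by omega) (by omega)
      omega
    have h7 : V i + V j ≤ 4 * m := by
      rw [hV]
      simp only
      omega
    have h6' : 2 * (t : ℝ) ≤ (y' i : ℝ) + y' j := by exact_mod_cast h6
    have h7' : (V i : ℝ) + V j ≤ 4 * m := by exact_mod_cast h7
    rw [add_div, div_self h5.ne', add_comm (1 : ℝ)]
    refine add_le_add_left ?_ _
    rw [div_le_div_iff₀ (by positivity) h5]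
    nlinarith
  have hBlow : (1 + (t : ℝ)) ^ 9 ≤ B := by
    have h3 : ∀ i ∈ range 19, a ^ (m - 20) ≤ ∏ j ∈ Ico (i + 1) m, f i j := by
      intro i hi
      rw [Finset.mem_range] at hi
      obtain ⟨k, hk⟩ : ∃ k, m = k + 1 := ⟨m - 1, by omega⟩
      rw [hk, Finset.prod_Ico_succ_top (by omega)]
      have h4 : a ^ (k + 1 - 20) ≤ ∏ j ∈ Ico (i + 1) k, f i j := by
        calc a ^ (k + 1 - 20) ≤ a ^ (Ico (i + 1) k).card := by
              refine pow_le_pow_right₀ ha1 ?_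
              rw [Nat.card_Ico]
              omega
          _ = ∏ _j ∈ Ico (i + 1) k, a := by rw [Finset.prod_const]
          _ ≤ ∏ j ∈ Ico (i + 1) k, f i j := by
              refine Finset.prod_le_prod (fun _ _ => by linarith) fun j hj => ?_
              rw [Finset.mem_Ico] at hj
              exact hf2 i j (by omega) (by omega)
      have h5 := hf1 i k (by omega) (by omega)
      have h6 : (0 : ℝ) ≤ a ^ (k + 1 - 20) := by positivity
      nlinarith
    have h4 : ∀ i ∈ Ico 19 m, 1 ≤ ∏ j ∈ Ico (i + 1) m, f i j := by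
      intro i _
      refine one_le_prod21 fun j hj => ?_
      rw [Finset.mem_Ico] at hj
      exact hf1 i j (by omega) hj.2
    have h5 : a ^ (18 * m) ≤ B := by
      rw [hB, ← Finset.prod_range_mul_prod_Ico _ (show 19 ≤ m by omega)]
      have h6 : (a ^ (m - 20)) ^ 19 ≤ ∏ i ∈ range 19, ∏ j ∈ Ico (i + 1) m, f i j := by
        calc (a ^ (m - 20)) ^ 19 = ∏ _i ∈ range 19, a ^ (m - 20) := by rw [Finset.prod_const, Finset.card_range]
          _ ≤ _ := Finset.prod_le_prod (fun _ _ => by positivity) h3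
      have h7 : 1 ≤ ∏ i ∈ Ico 19 m, ∏ j ∈ Ico (i + 1) m, f i j := one_le_prod21 h4
      have h8 : a ^ (18 * m) ≤ (a ^ (m - 20)) ^ 19 := by
        rw [← pow_mul]
        exact pow_le_pow_right₀ ha1 (by omega)
      have h9 : (0 : ℝ) ≤ (a ^ (m - 20)) ^ 19 := by positivity
      nlinarith
    have h6 : 1 + (t : ℝ) ≤ a ^ (2 * m) := by
      have h7 := one_add_mul_le_pow (a := (t : ℝ) / (2 * m)) (by have : 0 ≤ (t : ℝ) / (2 * m) := by positivity
                                                                 linarith) (2 * m)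
      rw [← ha] at h7
      push_cast at h7
      rw [mul_div_cancel₀ _ (by positivity)] at h7
      exact h7
    calc (1 + (t : ℝ)) ^ 9 ≤ (a ^ (2 * m)) ^ 9 := pow_le_pow_left₀ (by positivity) h6 9
      _ = a ^ (18 * m) := by rw [← pow_mul]; congr 1; ring
      _ ≤ B := h5
  -- the third factor
  have hA0 : 0 < A := by
    have h3 : (0 : ℝ) < (((∏ l ∈ range (m - 1), β l ^ gg m l) ^ 4 : ℤ) : ℝ) := by
      have : 0 < (∏ l ∈ range (m - 1), β l ^ gg m l) ^ 4 :=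
        pow_pos (Finset.prod_pos fun l _ => pow_pos (by have := hβ1 l; omega) _) 4
      exact_mod_cast this
    exact lt_of_lt_of_le h3 hAlow
  have hB0 : 0 < B := lt_of_lt_of_le (by positivity) hBlow
  have hD0 : 0 < D := by
    have h3 : (0 : ℝ) < A * B * D := by rw [← hnr]; exact_mod_cast hn0
    exact (mul_pos_iff_of_pos_left (mul_pos hA0 hB0)).1 h3
  have hBD : (1 + (t : ℝ)) ^ 8 ≤ B * D := by
    have h1t : (1 : ℝ) ≤ 1 + t := by linarith
    have h89 : (1 + (t : ℝ)) ^ 8 ≤ (1 + (t : ℝ)) ^ 9 := pow_le_pow_right₀ h1t (by norm_num)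
    by_cases hd0 : d = 0
    · rw [hD, if_pos hd0, mul_one]
      exact h89.trans hBlow
    · obtain ⟨k, hk⟩ : ∃ k, m = k + 1 := ⟨m - 1, by omega⟩
      rw [if_neg hd0] at hD
      have hD' : D = (∏ i ∈ range k, (((y' i : ℝ) + V i) / V i)) * (((y' k : ℝ) + V k) / V k) := by
        rw [hD, hk, Finset.prod_range_succ]
      have hP : 1 ≤ ∏ i ∈ range k, (((y' i : ℝ) + V i) / V i) := by
        refine one_le_prod21 fun i hi => ?_
        rw [Finset.mem_range] at hi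
        have h3 : (0 : ℝ) < V i := by exact_mod_cast hVpos i (by omega)
        have h4 : 0 ≤ y' i := (abs_nonneg _).trans (hmon i (m - 1) (by omega) (by omega))
        have h5 : (0 : ℝ) ≤ y' i := by exact_mod_cast h4
        rw [le_div_iff₀ h3]
        linarith
      have hVk : V k = d := by
        rw [hV]
        simp only
        rw [hk]
        push_cast
        ring
      have htk : t = |y' k| := by rw [ht, hk, Nat.add_sub_cancel]
      have hlast : 0 < ((y' k : ℝ) + V k) / V k := by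
        rw [hD'] at hD0
        exact (mul_pos_iff_of_pos_left (by linarith)).1 hD0
      rw [hVk] at hlast hD'
      have hdr : (0 : ℝ) < ((d : ℤ) : ℝ) := by
        have : 0 < d := Nat.pos_of_ne_zero hd0
        exact_mod_cast this
      have hpos : (0 : ℝ) < (y' k : ℝ) + ((d : ℤ) : ℝ) := by
        rcases (div_pos_iff).1 hlast with h | h
        · exact h.1
        · linarith [h.2]
      have hposZ : 0 < y' k + d := by exact_mod_cast hpos
      rcases le_or_gt 0 (y' k) with h3 | h3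
      · have h4 : 1 ≤ ((y' k : ℝ) + ((d : ℤ) : ℝ)) / ((d : ℤ) : ℝ) := by
          rw [le_div_iff₀ hdr]
          have : (0 : ℝ) ≤ y' k := by exact_mod_cast h3
          linarith
        have h5 : 1 ≤ D := by
          rw [hD']
          nlinarith
        nlinarith [hBlow]
      · have h4 : y' k = -1 ∧ d = 2 := by omega
        have h5 : (t : ℝ) = 1 := by
          have : t = 1 := by rw [htk, h4.1]; rfl
          exact_mod_cast this
        have h6 : 1 / 2 ≤ D := by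
          rw [hD', h4.1, h4.2]
          have e5 : (((-1 : ℤ) : ℝ) + (((2 : ℕ) : ℤ) : ℝ)) / (((2 : ℕ) : ℤ) : ℝ) = 1 / 2 := by norm_num
          rw [e5]
          linarith
        rw [h5] at hBlow ⊢
        norm_num at hBlow ⊢
        nlinarith
  have hfin : (((∏ i : Fin m, (if h : (i : ℕ) + 1 < m then (y i - y ⟨i + 1, h⟩) / 2 + 1 else |y i| + 1) ^ gg m i) ^ 4 : ℤ) : ℝ) ≤
      (n : ℝ) := by
    rw [hprod, hnr, mul_assoc A B D, mul_pow, Int.cast_mul]
    have h3 : (((t + 1) ^ 2) ^ 4 : ℤ) = (1 + t) ^ 8 := by ring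
    rw [h3]
    push_cast
    have h4 := hAlow
    push_cast at h4
    exact mul_le_mul h4 hBD (by positivity) hA0.le
  exact_mod_cast hfin

/-- Block PX-6, types `B`, `C`, `D` -/
theorem lowD : ∃ R : ℕ, ∀ m, R ≤ m → ∀ (d : ℕ), d ≤ 2 → ∀ (y : Fin m → ℤ) (n : ℕ), (∀ i j, i < j → |y j| ≤ y i) →
    (∀ i j, (2 : ℤ) ∣ y i - y j) → n * Py d m 0 = Py d m y → Py d m 0 ≠ 0 → 0 < n →
    (∏ i : Fin m, (if h : (i : ℕ) + 1 < m then (y i - y ⟨i + 1, h⟩) / 2 + 1 else |y i| + 1) ^ gg m i) ^ 4 ≤ (n : ℤ) :=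
  lowD21 means

/-- Block PX-6, type `A` -/
theorem lowA : ∃ R : ℕ, ∀ m, R ≤ m → ∀ (z : Fin m → ℤ) (n : ℕ), (∀ i j, i < j → z j ≤ z i) →
    (∀ i : Fin m, (i : ℕ) + 1 = m → z i = 0) → n * Pa m 0 = Pa m z → Pa m 0 ≠ 0 → 0 < n →
    (∏ i : Fin m, (if h : (i : ℕ) + 1 < m then z i - z ⟨i + 1, h⟩ + 1 else 1) ^ gg m i) ^ 4 ≤ (n : ℤ) :=
  lowA21 means

end PX
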